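import Mathlib

/-!
# The zero-one law for all powers: the rate
-/

namespace Pool.Agent.Helper47.ZP

/-- If the numerical rank `c l` is not smaller than the homological rank `a l` by a factor
`log (l + 2)` then, by log-convexity, it grows almost as fast as possible from `l` on. -/
theorem ratio {a c : ℕ → ℕ} {b d : ℕ} (hb : 1 ≤ b) (hc : ∀ l, 1 ≤ c l)
    (hconv : ∀ l, c (l + 1) ^ 2 ≤ c l * c (l + 2)) (hgr : ∀ l, b ^ (2 * l) ≤ a l * (l + 2) ^ d) :
    ∃ D : ℕ, ∀ l : ℕ, 1 ≤ l → (a l : ℝ) < c l * Real.log (l + 2) →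
      D * Real.log (l + 2) ≤ l → ∀ j : ℕ,
      (b : ℝ) ^ (2 * j) * (1 - j * (D * Real.log (l + 2) / l)) * c l ≤ c (l + j) := by
  refine ⟨d + 1 + c 0, fun l hl hal hDl => ?_⟩
  have hcp : ∀ l, (0 : ℝ) < c l := fun l => by exact_mod_cast hc l
  have hl0 : (0 : ℝ) < l := by exact_mod_cast hl
  have hl2 : (0 : ℝ) < (l : ℝ) + 2 := by positivity
  -- the ratios increase
  let ρ : ℕ → ℝ := fun l => c (l + 1) / c l
  have hρ : ∀ l, ρ l ≤ ρ (l + 1) := by
    intro l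
    change (c (l + 1) : ℝ) / c l ≤ c (l + 1 + 1) / c (l + 1)
    rw [div_le_div_iff₀ (hcp l) (hcp (l + 1))]
    have := hconv l
    have h2 : ((c (l + 1) ^ 2 : ℕ) : ℝ) ≤ ((c l * c (l + 2) : ℕ) : ℝ) := by exact_mod_cast this
    push_cast at h2
    nlinarith [h2]
  have hρm : Monotone ρ := monotone_nat_of_le_succ hρ
  have hρ0 : ∀ l, 0 < ρ l := fun l => div_pos (hcp _) (hcp _)
  have hcs : ∀ l, (c (l + 1) : ℝ) = ρ l * c l := fun l => by
    change (c (l + 1) : ℝ) = c (l + 1) / c l * c l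
    rw [div_mul_cancel₀ _ (hcp l).ne']
  -- before `l`
  have hbef : ∀ i ≤ l, (c i : ℝ) ≤ ρ l ^ i * c 0 := by
    intro i
    induction i with
    | zero => intro _; rw [pow_zero, one_mul]
    | succ i ih =>
      intro hi
      rw [hcs, pow_succ]
      calc ρ i * (c i : ℝ) ≤ ρ l * (ρ l ^ i * c 0) :=
            mul_le_mul (hρm (by omega)) (ih (by omega)) (hcp i).le (hρ0 l).le
        _ = ρ l ^ i * ρ l * c 0 := by ring
  -- after `l`
  have haft : ∀ j, ρ l ^ j * c l ≤ c (l + j) := by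
    intro j
    induction j with
    | zero => rw [pow_zero, one_mul, add_zero]
    | succ j ih =>
      rw [← add_assoc, hcs, pow_succ]
      calc ρ l ^ j * ρ l * (c l : ℝ) = ρ l * (ρ l ^ j * c l) := by ring
        _ ≤ ρ (l + j) * c (l + j) :=
          mul_le_mul (hρm (by omega)) ih (by positivity) (hρ0 _).le
  -- the lower bound for the ratio
  have hlog : Real.log (l + 2) ≤ l + 2 := (Real.log_le_sub_one_of_pos hl2).trans (by linarith)
  have hlog0 : 0 < Real.log (l + 2) := Real.log_pos (by linarith)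
  have h1 : (b : ℝ) ^ (2 * l) ≤ ((l : ℝ) + 2) ^ (d + 1 + c 0) * ρ l ^ l := by
    have e1 : (b : ℝ) ^ (2 * l) ≤ a l * ((l : ℝ) + 2) ^ d := by exact_mod_cast hgr l
    have e2 : (a l : ℝ) ≤ (ρ l ^ l * c 0) * (l + 2) := by
      calc (a l : ℝ) ≤ c l * Real.log (l + 2) := hal.le
        _ ≤ (ρ l ^ l * c 0) * (l + 2) :=
          mul_le_mul (hbef l le_rfl) hlog hlog0.le (by positivity)
    have e3 : (c 0 : ℝ) ≤ ((l : ℝ) + 2) ^ c 0 := by
      have h3 : c 0 ≤ 2 ^ c 0 := Nat.lt_two_pow_self.le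
      have h4 : ((c 0 : ℕ) : ℝ) ≤ (2 : ℝ) ^ c 0 := by exact_mod_cast h3
      exact h4.trans (pow_le_pow_left₀ (by norm_num) (by linarith) _)
    calc (b : ℝ) ^ (2 * l) ≤ a l * ((l : ℝ) + 2) ^ d := e1
      _ ≤ ((ρ l ^ l * c 0) * (l + 2)) * ((l : ℝ) + 2) ^ d :=
        mul_le_mul_of_nonneg_right e2 (by positivity)
      _ = (ρ l ^ l * ((l : ℝ) + 2) ^ (d + 1)) * c 0 := by ring
      _ ≤ (ρ l ^ l * ((l : ℝ) + 2) ^ (d + 1)) * ((l : ℝ) + 2) ^ c 0 :=
        mul_le_mul_of_nonneg_left e3 (by positivity)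
      _ = ((l : ℝ) + 2) ^ (d + 1 + c 0) * ρ l ^ l := by rw [pow_add _ (d + 1) (c 0)]; ring
  obtain ⟨D, hD⟩ : ∃ D : ℕ, d + 1 + c 0 = D := ⟨_, rfl⟩
  rw [hD] at h1 hDl ⊢
  have hx : (0 : ℝ) ≤ 1 - D * Real.log (l + 2) / l := by
    rw [sub_nonneg, div_le_one hl0]
    exact hDl
  have h2 : (b : ℝ) ^ 2 * (1 - D * Real.log (l + 2) / l) ≤ ρ l := by
    by_contra hlt
    have hlt := lt_of_not_ge hlt
    have h3 : 1 - D * Real.log (l + 2) / l ≤ Real.exp (-(D * Real.log (l + 2) / l)) := by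
      have := Real.add_one_le_exp (-(D * Real.log (l + 2) / l))
      linarith
    have hb0 : (0 : ℝ) < b := by exact_mod_cast hb
    have h4 : ρ l < (b : ℝ) ^ 2 * Real.exp (-(D * Real.log (l + 2) / l)) :=
      lt_of_lt_of_le hlt (mul_le_mul_of_nonneg_left h3 (by positivity))
    have h5 : ρ l ^ l < ((b : ℝ) ^ 2 * Real.exp (-(D * Real.log (l + 2) / l))) ^ l :=
      pow_lt_pow_left₀ h4 (hρ0 l).le (by omega)
    have h6 : ((b : ℝ) ^ 2 * Real.exp (-(D * Real.log (l + 2) / l))) ^ l =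
        (b : ℝ) ^ (2 * l) * (((l : ℝ) + 2) ^ D)⁻¹ := by
      rw [mul_pow, ← pow_mul, ← Real.exp_nat_mul]
      congr 1
      have h7 : (l : ℝ) * (-(D * Real.log (l + 2) / l)) = -(D * Real.log (l + 2)) := by
        field_simp
      rw [h7, Real.exp_neg, ← Real.log_pow, Real.exp_log (by positivity)]
    rw [h6, ← div_eq_mul_inv, lt_div_iff₀ (by positivity)] at h5
    nlinarith [h1, h5]
  intro j
  refine le_trans ?_ (haft j)
  refine mul_le_mul_of_nonneg_right ?_ (hcp l).le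
  have h3 : ((b : ℝ) ^ 2 * (1 - D * Real.log (l + 2) / l)) ^ j ≤ ρ l ^ j :=
    pow_le_pow_left₀ (mul_nonneg (by positivity) hx) h2 j
  refine le_trans ?_ h3
  rw [mul_pow, ← pow_mul]
  refine mul_le_mul_of_nonneg_left ?_ (by positivity)
  have h4 := one_add_mul_le_pow (a := -(D * Real.log (l + 2) / l)) (by linarith) j
  calc (1 : ℝ) - j * (D * Real.log (l + 2) / l) = 1 + j * -(D * Real.log (l + 2) / l) := by ring
    _ ≤ (1 + -(D * Real.log (l + 2) / l)) ^ j := h4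
    _ = (1 - D * Real.log (l + 2) / l) ^ j := by rw [sub_eq_add_neg]

theorem log_small (K : ℝ) : ∃ L0 : ℕ, ∀ l : ℕ, L0 ≤ l →
    K * Real.log (l + 2) ^ 2 * √((l : ℝ) + 2) ≤ l := by
  have h := (Real.isLittleO_pow_log_id_atTop (n := 4)).def
    (show (0 : ℝ) < (1 / (2 * (|K| + 1))) ^ 2 by positivity)
  obtain ⟨x0, hx0⟩ := Filter.eventually_atTop.1 h
  obtain ⟨N, hN⟩ := exists_nat_ge x0
  refine ⟨N + 2, fun l hl => ?_⟩
  have hlN : ((N + 2 : ℕ) : ℝ) ≤ l := by exact_mod_cast hl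
  push_cast at hlN
  have hN0 : (0 : ℝ) ≤ N := Nat.cast_nonneg N
  have hx : (0 : ℝ) < (l : ℝ) + 2 := by linarith
  have h1 := hx0 ((l : ℝ) + 2) (by linarith)
  rw [Real.norm_of_nonneg (by positivity), id, Real.norm_of_nonneg hx.le] at h1
  have h2 : Real.log (l + 2) ^ 2 ≤ 1 / (2 * (|K| + 1)) * √((l : ℝ) + 2) := by
    refine abs_le_of_sq_le_sq' ?_ (by positivity) |>.2
    rw [mul_pow, Real.sq_sqrt hx.le, ← pow_mul]
    exact h1
  have h3 : |K| * (1 / (2 * (|K| + 1))) ≤ 1 / 2 := by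
    rw [mul_one_div, div_le_div_iff₀ (by positivity) (by norm_num)]
    linarith [abs_nonneg K]
  calc K * Real.log (l + 2) ^ 2 * √((l : ℝ) + 2)
      ≤ |K| * Real.log (l + 2) ^ 2 * √((l : ℝ) + 2) := by
        gcongr
        exact le_abs_self K
    _ ≤ |K| * (1 / (2 * (|K| + 1)) * √((l : ℝ) + 2)) * √((l : ℝ) + 2) := by gcongr
    _ = |K| * (1 / (2 * (|K| + 1))) * (√((l : ℝ) + 2) * √((l : ℝ) + 2)) := by ring
    _ = |K| * (1 / (2 * (|K| + 1))) * ((l : ℝ) + 2) := by rw [Real.mul_self_sqrt hx.le]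
    _ ≤ 1 / 2 * ((l : ℝ) + 2) := by gcongr
    _ ≤ l := by linarith

/-- Finitely many `l` do not matter. -/
theorem of_large {a c : ℕ → ℕ} {b d : ℕ} (hb : 1 ≤ b)
    (hgr : ∀ l, b ^ (2 * l) ≤ a l * (l + 2) ^ d) {C0 : ℝ} (hC0 : 0 < C0) {L0 : ℕ}
    (h : ∀ l ≥ L0, (c l : ℝ) * Real.log (l + 2) ≤ C0 * a l) :
    ∃ C : ℝ, 0 < C ∧ ∀ l : ℕ, (c l : ℝ) * Real.log (l + 2) ≤ C * a l := by
  have ha : ∀ l, (1 : ℝ) ≤ a l := by
    intro l
    have h1 : 1 ≤ a l := by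
      by_contra h0
      have h0 : a l = 0 := by omega
      have := hgr l
      rw [h0, zero_mul] at this
      have h2 : 0 < b ^ (2 * l) := Nat.pow_pos hb
      omega
    exact_mod_cast h1
  have hterm : ∀ l : ℕ, 0 ≤ (c l : ℝ) * Real.log (l + 2) := fun l =>
    mul_nonneg (Nat.cast_nonneg _) (Real.log_nonneg (by
      have : (0 : ℝ) ≤ l := Nat.cast_nonneg l
      linarith))
  refine ⟨C0 + ∑ l ∈ Finset.range L0, (c l : ℝ) * Real.log (l + 2),
    add_pos_of_pos_of_nonneg hC0 (Finset.sum_nonneg fun l _ => hterm l), fun l => ?_⟩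
  have hS : 0 ≤ ∑ l ∈ Finset.range L0, (c l : ℝ) * Real.log (l + 2) :=
    Finset.sum_nonneg fun l _ => hterm l
  by_cases hl : L0 ≤ l
  · refine (h l hl).trans ?_
    have := ha l
    nlinarith
  · have h1 : (c l : ℝ) * Real.log (l + 2) ≤
        ∑ l ∈ Finset.range L0, (c l : ℝ) * Real.log (l + 2) :=
      Finset.single_le_sum (f := fun l : ℕ => (c l : ℝ) * Real.log (l + 2))
        (fun i _ => hterm i) (Finset.mem_range.2 (by omega))
    have := ha l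
    nlinarith

theorem rate_A {a c : ℕ → ℕ} {b d s : ℕ} (hb : 1 ≤ b) (hs : 1 ≤ s) (hc : ∀ l, 1 ≤ c l)
    (hconv : ∀ l, c (l + 1) ^ 2 ≤ c l * c (l + 2)) (hgr : ∀ l, b ^ (2 * l) ≤ a l * (l + 2) ^ d)
    (h : ∀ l, c (l + s) ≤ (b ^ (2 * s) - 1) * c l) :
    ∃ C : ℝ, 0 < C ∧ ∀ l : ℕ, (c l : ℝ) * Real.log (l + 2) ≤ C * a l := by
  obtain ⟨D, hD⟩ := ratio hb hc hconv hgr
  obtain ⟨L0, hL0⟩ := log_small (2 * (b : ℝ) ^ (2 * s) * s * (D + 1))
  refine of_large hb hgr one_pos (L0 := L0 + 1) fun l hl => ?_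
  rw [one_mul]
  by_contra hlt
  have hlt := lt_of_not_ge hlt
  have hl1 : 1 ≤ l := by omega
  have hl0 : (0 : ℝ) < l := by exact_mod_cast hl1
  have h1 := hL0 l (by omega)
  have hb1 : (1 : ℝ) ≤ (b : ℝ) ^ (2 * s) := one_le_pow₀ (by exact_mod_cast hb)
  have hs1 : (1 : ℝ) ≤ s := by exact_mod_cast hs
  have hlog : 1 ≤ Real.log (l + 2) := by
    rw [Real.le_log_iff_exp_le (by positivity)]
    have := Real.exp_one_lt_d9
    have : (1 : ℝ) ≤ l := by exact_mod_cast hl1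
    linarith
  have hsq : 1 ≤ √((l : ℝ) + 2) := by
    rw [Real.one_le_sqrt]
    linarith
  have h2 : (b : ℝ) ^ (2 * s) * s * (D + 1) * Real.log (l + 2) * 2 ≤ l := by
    refine le_trans ?_ h1
    have h3 : Real.log (l + 2) ≤ Real.log (l + 2) ^ 2 := by nlinarith
    have h4 : Real.log (l + 2) ≤ Real.log (l + 2) ^ 2 * √((l : ℝ) + 2) := by
      have : 0 ≤ Real.log (l + 2) ^ 2 := by positivity
      nlinarith
    have h5 : 0 ≤ 2 * (b : ℝ) ^ (2 * s) * s * (D + 1) := by positivity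
    calc (b : ℝ) ^ (2 * s) * s * (D + 1) * Real.log (l + 2) * 2
        = 2 * (b : ℝ) ^ (2 * s) * s * (D + 1) * Real.log (l + 2) := by ring
      _ ≤ 2 * (b : ℝ) ^ (2 * s) * s * (D + 1) * (Real.log (l + 2) ^ 2 * √((l : ℝ) + 2)) :=
        mul_le_mul_of_nonneg_left h4 h5
      _ = 2 * (b : ℝ) ^ (2 * s) * s * (D + 1) * Real.log (l + 2) ^ 2 * √((l : ℝ) + 2) := by ring
  have hD0 : (0 : ℝ) ≤ D := Nat.cast_nonneg D
  have h3 : (D : ℝ) * Real.log (l + 2) ≤ l := by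
    refine le_trans ?_ h2
    have h4 : 1 ≤ (b : ℝ) ^ (2 * s) * s := one_le_mul_of_one_le_of_one_le hb1 hs1
    have h5 : (D : ℝ) * Real.log (l + 2) ≤ (D + 1) * Real.log (l + 2) := by nlinarith
    have h6 : 0 ≤ ((D : ℝ) + 1) * Real.log (l + 2) := by positivity
    nlinarith
  have h4 := hD l hl1 hlt h3 s
  have h5 : ((c (l + s) : ℕ) : ℝ) ≤ (b ^ (2 * s) - 1) * c l := by
    have h6 : 1 ≤ b ^ (2 * s) := Nat.one_le_pow _ _ hb
    have h7 : ((c (l + s) : ℕ) : ℝ) ≤ (((b ^ (2 * s) - 1) * c l : ℕ) : ℝ) := by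
      exact_mod_cast h l
    rw [Nat.cast_mul, Nat.cast_sub h6] at h7
    push_cast at h7
    exact h7
  have hcl : (0 : ℝ) < c l := by exact_mod_cast hc l
  have h6 : (b : ℝ) ^ (2 * s) * (1 - s * (D * Real.log (l + 2) / l)) ≤ (b : ℝ) ^ (2 * s) - 1 :=
    le_of_mul_le_mul_right (h4.trans h5) hcl
  have h7 : (b : ℝ) ^ (2 * s) * s * D * Real.log (l + 2) / l ≤ 1 / 2 := by
    rw [div_le_iff₀ hl0]
    have : 0 ≤ (b : ℝ) ^ (2 * s) * s * Real.log (l + 2) := by positivity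
    nlinarith [h2]
  have h8 : (b : ℝ) ^ (2 * s) * (1 - s * (D * Real.log (l + 2) / l)) =
      (b : ℝ) ^ (2 * s) - (b : ℝ) ^ (2 * s) * s * D * Real.log (l + 2) / l := by
    field_simp
  linarith

theorem rate_B {a c : ℕ → ℕ} {b d s : ℕ} (hb : 1 ≤ b) (hs : 1 ≤ s) (hc : ∀ l, 1 ≤ c l)
    (hconv : ∀ l, c (l + 1) ^ 2 ≤ c l * c (l + 2)) (hgr : ∀ l, b ^ (2 * l) ≤ a l * (l + 2) ^ d)
    (h : ∀ k0 l, c l + ∑ k ∈ Finset.range k0, c (l + s * (k + 1)) ≤
      a l + ∑ k ∈ Finset.range k0, (b ^ (2 * s * (k + 1)) - 1) * c l) :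
    ∃ C : ℝ, 0 < C ∧ ∀ l : ℕ, (c l : ℝ) * Real.log (l + 2) ≤ C * a l := by
  obtain ⟨D, hD⟩ := ratio hb hc hconv hgr
  obtain ⟨L0, hL0⟩ := log_small (2 * s * (D + 1))
  have hs1 : (1 : ℝ) ≤ s := by exact_mod_cast hs
  have hb1 : (1 : ℝ) ≤ b := by exact_mod_cast hb
  have hlb : 0 ≤ Real.log b := Real.log_nonneg hb1
  have hD0 : (0 : ℝ) ≤ D := Nat.cast_nonneg D
  refine of_large hb hgr (C0 := 8 * s * (Real.log b + 1)) (by positivity) (L0 := L0 + 1)
    fun l hl => ?_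
  have hl1 : 1 ≤ l := by omega
  have hl0 : (0 : ℝ) < l := by exact_mod_cast hl1
  have hlog : 1 ≤ Real.log (l + 2) := by
    rw [Real.le_log_iff_exp_le (by positivity)]
    have := Real.exp_one_lt_d9
    have : (1 : ℝ) ≤ l := by exact_mod_cast hl1
    linarith
  have hsq : 1 ≤ √((l : ℝ) + 2) := by
    rw [Real.one_le_sqrt]
    linarith
  have hcl : (0 : ℝ) < c l := by exact_mod_cast hc l
  by_cases hal : (c l : ℝ) * Real.log (l + 2) ≤ a l
  · refine hal.trans ?_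
    have : (0 : ℝ) ≤ a l := Nat.cast_nonneg _
    have h1 : (1 : ℝ) ≤ 8 * s * (Real.log b + 1) := by nlinarith
    nlinarith
  have hal := lt_of_not_ge hal
  have h1 := hL0 l (by omega)
  obtain ⟨L, hL⟩ : ∃ L, Real.log ((l : ℝ) + 2) = L := ⟨_, rfl⟩
  rw [hL] at hlog hal h1 ⊢
  have hL2 : L ≤ L ^ 2 * √((l : ℝ) + 2) := by
    have h3 : L ≤ L ^ 2 := by nlinarith
    have : 0 ≤ L ^ 2 := by positivity
    nlinarith
  have hDl : (D : ℝ) * L ≤ l := by
    refine le_trans ?_ h1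
    have h4 : (D : ℝ) ≤ 2 * s * (D + 1) := by nlinarith
    calc (D : ℝ) * L ≤ 2 * s * (D + 1) * (L ^ 2 * √((l : ℝ) + 2)) :=
          mul_le_mul h4 hL2 (by linarith) (by positivity)
      _ = 2 * s * (D + 1) * L ^ 2 * √((l : ℝ) + 2) := by ring
  have hj := hD l hl1 (by rw [hL]; exact hal) (by rw [hL]; exact hDl)
  rw [hL] at hj
  -- the number of layers
  obtain ⟨q, hq⟩ : ∃ q : ℝ, 4 * s * (Real.log b + 1) = q := ⟨_, rfl⟩
  have hq0 : 4 ≤ q := by
    rw [← hq]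
    nlinarith
  let k0 : ℕ := ⌊L / q⌋₊
  have hk0 : (k0 : ℝ) ≤ L / q := Nat.floor_le (by positivity)
  have hk0' : L / q < k0 + 1 := Nat.lt_floor_add_one _
  have hk0L : (k0 : ℝ) ≤ L := by
    refine hk0.trans ?_
    rw [div_le_iff₀ (by linarith)]
    nlinarith
  have hbk : ∀ k < k0, (b : ℝ) ^ (2 * (s * (k + 1))) ≤ √((l : ℝ) + 2) := by
    intro k hk
    have h5 : (b : ℝ) ^ (2 * (s * (k + 1))) ≤ (b : ℝ) ^ (2 * (s * k0)) :=
      pow_le_pow_right₀ hb1 (Nat.mul_le_mul_left 2 (Nat.mul_le_mul_left s hk))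
    refine h5.trans ?_
    have h6 : Real.log ((b : ℝ) ^ (2 * (s * k0))) ≤ L / 2 := by
      rw [Real.log_pow]
      push_cast
      have h7 : (k0 : ℝ) * q ≤ L := by
        rwa [le_div_iff₀ (by linarith)] at hk0
      have h8 : 2 * ((s : ℝ) * k0) * Real.log b * 2 ≤ k0 * q := by
        rw [← hq]
        have : 0 ≤ (s : ℝ) * k0 := by positivity
        nlinarith
      linarith
    have h9 : (b : ℝ) ^ (2 * (s * k0)) = Real.exp (Real.log ((b : ℝ) ^ (2 * (s * k0)))) :=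
      (Real.exp_log (by positivity)).symm
    rw [h9, Real.sqrt_eq_rpow, Real.rpow_def_of_pos (by positivity), hL]
    apply Real.exp_le_exp.2
    linarith
  have hterm : ∀ k ∈ Finset.range k0,
      ((b : ℝ) ^ (2 * (s * (k + 1))) - 1) * c l + 1 / 2 * c l ≤ c (l + s * (k + 1)) := by
    intro k hk
    have hk' := Finset.mem_range.1 hk
    refine le_trans ?_ (hj (s * (k + 1)))
    rw [← add_mul]
    refine mul_le_mul_of_nonneg_right ?_ hcl.le
    have hkL : ((k : ℝ) + 1) ≤ L := by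
      have : ((k + 1 : ℕ) : ℝ) ≤ k0 := by exact_mod_cast hk'
      push_cast at this
      linarith
    have h10 : (b : ℝ) ^ (2 * (s * (k + 1))) * ((s * (k + 1) : ℕ) * (D * L / l)) ≤ 1 / 2 := by
      have e1 : (b : ℝ) ^ (2 * (s * (k + 1))) * ((s * (k + 1) : ℕ) * (D * L / l)) =
          ((b : ℝ) ^ (2 * (s * (k + 1))) * (s * (k + 1) * (D * L))) / l := by
        push_cast
        ring
      rw [e1, div_le_iff₀ hl0]
      have h11 : (b : ℝ) ^ (2 * (s * (k + 1))) * (s * (k + 1) * (D * L)) ≤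
          √((l : ℝ) + 2) * (s * L * (D * L)) := by
        gcongr
        exact hbk k hk'
      have h12 : √((l : ℝ) + 2) * (s * L * (D * L)) * 2 ≤
          2 * s * (D + 1) * L ^ 2 * √((l : ℝ) + 2) := by
        have : 0 ≤ (s : ℝ) * L ^ 2 * √((l : ℝ) + 2) := by positivity
        nlinarith
      linarith
    rw [mul_sub, mul_one]
    linarith
  have hmain := h k0 l
  have hmain2 : (c l : ℝ) + ∑ k ∈ Finset.range k0, (c (l + s * (k + 1)) : ℝ) ≤
      a l + ∑ k ∈ Finset.range k0, ((b : ℝ) ^ (2 * (s * (k + 1))) - 1) * c l := by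
    have h13 : ((c l + ∑ k ∈ Finset.range k0, c (l + s * (k + 1)) : ℕ) : ℝ) ≤
        ((a l + ∑ k ∈ Finset.range k0, (b ^ (2 * s * (k + 1)) - 1) * c l : ℕ) : ℝ) := by
      exact_mod_cast hmain
    push_cast at h13
    refine h13.trans (le_of_eq ?_)
    congr 1
    refine Finset.sum_congr rfl fun k _ => ?_
    have h14 : 1 ≤ b ^ (2 * s * (k + 1)) := Nat.one_le_pow _ _ hb
    rw [Nat.cast_sub h14, mul_assoc 2 s (k + 1)]
    push_cast
    rfl
  have hsum := Finset.sum_le_sum hterm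
  rw [Finset.sum_add_distrib, Finset.sum_const, Finset.card_range, nsmul_eq_mul] at hsum
  have h15 : (c l : ℝ) + k0 * (1 / 2 * c l) ≤ a l := by linarith
  have h16 : L ≤ q * (k0 + 1) := by
    rw [div_lt_iff₀ (by linarith)] at hk0'
    linarith
  have h17 : 8 * s * (Real.log b + 1) = 2 * q := by rw [← hq]; ring
  rw [h17]
  have hk00 : (0 : ℝ) ≤ k0 := Nat.cast_nonneg _
  calc (c l : ℝ) * L ≤ c l * (q * (k0 + 1)) := mul_le_mul_of_nonneg_left h16 hcl.le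
    _ ≤ 2 * q * (c l + k0 * (1 / 2 * c l)) := by nlinarith [mul_pos (show (0 : ℝ) < q by linarith) hcl]
    _ ≤ 2 * q * a l := mul_le_mul_of_nonneg_left h15 (by linarith)

end Pool.Agent.Helper47.ZP
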