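import Pool.Agent.Helper47.ZP.Rate

/-!
# The zero-one law for all powers: a uniform rate
-/

namespace Pool.Agent.Helper47.ZP

/-- The lemma `ratio` with an explicit constant. -/
theorem ratio_explicit {a c : ℕ → ℕ} {b d : ℕ} (hb : 1 ≤ b) (hc : ∀ l, 1 ≤ c l)
    (hconv : ∀ l, c (l + 1) ^ 2 ≤ c l * c (l + 2)) (hgr : ∀ l, b ^ (2 * l) ≤ a l * (l + 2) ^ d)
    {D : ℕ} (hD0 : d + 1 + c 0 ≤ D) {l : ℕ} (hl : 1 ≤ l)
    (hal : (a l : ℝ) < c l * Real.log (l + 2)) (hDl : D * Real.log (l + 2) ≤ l) (j : ℕ) :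
    (b : ℝ) ^ (2 * j) * (1 - j * (D * Real.log (l + 2) / l)) * c l ≤ c (l + j) := by
  have hcp : ∀ l, (0 : ℝ) < c l := fun l => by exact_mod_cast hc l
  have hl0 : (0 : ℝ) < l := by exact_mod_cast hl
  have hl2 : (0 : ℝ) < (l : ℝ) + 2 := by positivity
  -- the ratios increase
  let ρ : ℕ → ℝ := fun l => c (l + 1) / c l
  have hρ : ∀ l, ρ l ≤ ρ (l + 1) := by
    intro l
    change (c (l + 1) : ℝ) / c l ≤ c (l + 1 + 1) / c (l + 1)
    rw [div_le_div_iff₀ (hcp l) (hcp (l + 1))]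
    have := hconv l
    have h2 : ((c (l + 1) ^ 2 : ℕ) : ℝ) ≤ ((c l * c (l + 2) : ℕ) : ℝ) := by exact_mod_cast this
    push_cast at h2
    nlinarith [h2]
  have hρm : Monotone ρ := monotone_nat_of_le_succ hρ
  have hρ0 : ∀ l, 0 < ρ l := fun l => div_pos (hcp _) (hcp _)
  have hcs : ∀ l, (c (l + 1) : ℝ) = ρ l * c l := fun l => by
    change (c (l + 1) : ℝ) = c (l + 1) / c l * c l
    rw [div_mul_cancel₀ _ (hcp l).ne']
  -- before `l`
  have hbef : ∀ i ≤ l, (c i : ℝ) ≤ ρ l ^ i * c 0 := by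
    intro i
    induction i with
    | zero => intro _; rw [pow_zero, one_mul]
    | succ i ih =>
      intro hi
      rw [hcs, pow_succ]
      calc ρ i * (c i : ℝ) ≤ ρ l * (ρ l ^ i * c 0) :=
            mul_le_mul (hρm (by omega)) (ih (by omega)) (hcp i).le (hρ0 l).le
        _ = ρ l ^ i * ρ l * c 0 := by ring
  -- after `l`
  have haft : ∀ j, ρ l ^ j * c l ≤ c (l + j) := by
    intro j
    induction j with
    | zero => rw [pow_zero, one_mul, add_zero]
    | succ j ih =>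
      rw [← add_assoc, hcs, pow_succ]
      calc ρ l ^ j * ρ l * (c l : ℝ) = ρ l * (ρ l ^ j * c l) := by ring
        _ ≤ ρ (l + j) * c (l + j) :=
          mul_le_mul (hρm (by omega)) ih (by positivity) (hρ0 _).le
  -- the lower bound for the ratio
  have hlog : Real.log (l + 2) ≤ l + 2 := (Real.log_le_sub_one_of_pos hl2).trans (by linarith)
  have hlog0 : 0 < Real.log (l + 2) := Real.log_pos (by linarith)
  have h1 : (b : ℝ) ^ (2 * l) ≤ ((l : ℝ) + 2) ^ (d + 1 + c 0) * ρ l ^ l := by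
    have e1 : (b : ℝ) ^ (2 * l) ≤ a l * ((l : ℝ) + 2) ^ d := by exact_mod_cast hgr l
    have e2 : (a l : ℝ) ≤ (ρ l ^ l * c 0) * (l + 2) := by
      calc (a l : ℝ) ≤ c l * Real.log (l + 2) := hal.le
        _ ≤ (ρ l ^ l * c 0) * (l + 2) :=
          mul_le_mul (hbef l le_rfl) hlog hlog0.le (by positivity)
    have e3 : (c 0 : ℝ) ≤ ((l : ℝ) + 2) ^ c 0 := by
      have h3 : c 0 ≤ 2 ^ c 0 := Nat.lt_two_pow_self.le
      have h4 : ((c 0 : ℕ) : ℝ) ≤ (2 : ℝ) ^ c 0 := by exact_mod_cast h3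
      exact h4.trans (pow_le_pow_left₀ (by norm_num) (by linarith) _)
    calc (b : ℝ) ^ (2 * l) ≤ a l * ((l : ℝ) + 2) ^ d := e1
      _ ≤ ((ρ l ^ l * c 0) * (l + 2)) * ((l : ℝ) + 2) ^ d :=
        mul_le_mul_of_nonneg_right e2 (by positivity)
      _ = (ρ l ^ l * ((l : ℝ) + 2) ^ (d + 1)) * c 0 := by ring
      _ ≤ (ρ l ^ l * ((l : ℝ) + 2) ^ (d + 1)) * ((l : ℝ) + 2) ^ c 0 :=
        mul_le_mul_of_nonneg_left e3 (by positivity)
      _ = ((l : ℝ) + 2) ^ (d + 1 + c 0) * ρ l ^ l := by rw [pow_add _ (d + 1) (c 0)]; ring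
  have h1 : (b : ℝ) ^ (2 * l) ≤ ((l : ℝ) + 2) ^ D * ρ l ^ l :=
    h1.trans (mul_le_mul_of_nonneg_right (pow_le_pow_right₀ (by linarith) hD0)
      (pow_nonneg (hρ0 l).le _))
  have hx : (0 : ℝ) ≤ 1 - D * Real.log (l + 2) / l := by
    rw [sub_nonneg, div_le_one hl0]
    exact hDl
  have h2 : (b : ℝ) ^ 2 * (1 - D * Real.log (l + 2) / l) ≤ ρ l := by
    by_contra hlt
    have hlt := lt_of_not_ge hlt
    have h3 : 1 - D * Real.log (l + 2) / l ≤ Real.exp (-(D * Real.log (l + 2) / l)) := by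
      have := Real.add_one_le_exp (-(D * Real.log (l + 2) / l))
      linarith
    have hb0 : (0 : ℝ) < b := by exact_mod_cast hb
    have h4 : ρ l < (b : ℝ) ^ 2 * Real.exp (-(D * Real.log (l + 2) / l)) :=
      lt_of_lt_of_le hlt (mul_le_mul_of_nonneg_left h3 (by positivity))
    have h5 : ρ l ^ l < ((b : ℝ) ^ 2 * Real.exp (-(D * Real.log (l + 2) / l))) ^ l :=
      pow_lt_pow_left₀ h4 (hρ0 l).le (by omega)
    have h6 : ((b : ℝ) ^ 2 * Real.exp (-(D * Real.log (l + 2) / l))) ^ l =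
        (b : ℝ) ^ (2 * l) * (((l : ℝ) + 2) ^ D)⁻¹ := by
      rw [mul_pow, ← pow_mul, ← Real.exp_nat_mul]
      congr 1
      have h7 : (l : ℝ) * (-(D * Real.log (l + 2) / l)) = -(D * Real.log (l + 2)) := by
        field_simp
      rw [h7, Real.exp_neg, ← Real.log_pow, Real.exp_log (by positivity)]
    rw [h6, ← div_eq_mul_inv, lt_div_iff₀ (by positivity)] at h5
    nlinarith [h1, h5]
  refine le_trans ?_ (haft j)
  refine mul_le_mul_of_nonneg_right ?_ (hcp l).le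
  have h3 : ((b : ℝ) ^ 2 * (1 - D * Real.log (l + 2) / l)) ^ j ≤ ρ l ^ j :=
    pow_le_pow_left₀ (mul_nonneg (by positivity) hx) h2 j
  refine le_trans ?_ h3
  rw [mul_pow, ← pow_mul]
  refine mul_le_mul_of_nonneg_left ?_ (by positivity)
  have h4 := one_add_mul_le_pow (a := -(D * Real.log (l + 2) / l)) (by linarith) j
  calc (1 : ℝ) - j * (D * Real.log (l + 2) / l) = 1 + j * -(D * Real.log (l + 2) / l) := by ring
    _ ≤ (1 + -(D * Real.log (l + 2) / l)) ^ j := h4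
    _ = (1 - D * Real.log (l + 2) / l) ^ j := by rw [sub_eq_add_neg]


/-- The rate with a constant that does not depend on the sequences. -/
theorem uniform_rate (b d s : ℕ) (hb : 1 ≤ b) (hs : 1 ≤ s) : ∃ C : ℝ, 0 < C ∧
    ∀ a c : ℕ → ℕ, (∀ l, 1 ≤ c l) → (∀ l, c l ≤ b ^ (2 * (l + 1))) →
      (∀ l, c (l + 1) ^ 2 ≤ c l * c (l + 2)) → (∀ l, b ^ (2 * l) ≤ a l * (l + 2) ^ d) →
      (∀ K, (∃ i ≤ K, ∀ l, c (l + s * (i + 1)) ≤ (b ^ (2 * s * (i + 1)) - 1) * c l) ∨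
        (∀ k0 ≤ K, ∀ l, c l + ∑ k ∈ Finset.range k0, c (l + s * (k + 1)) ≤
          a l + ∑ k ∈ Finset.range k0, (b ^ (2 * s * (k + 1)) - 1) * c l)) →
      ∀ l, (c l : ℝ) * Real.log (l + 2) ≤ C * a l := by
  obtain ⟨D, hDdef⟩ : ∃ D : ℕ, d + 1 + b ^ 2 = D := ⟨_, rfl⟩
  obtain ⟨L0, hL0⟩ := log_small (4 * s * (D + 1) * (b : ℝ) ^ (2 * s))
  have hs1 : (1 : ℝ) ≤ s := by exact_mod_cast hs
  have hb1 : (1 : ℝ) ≤ b := by exact_mod_cast hb
  have hb2 : (1 : ℝ) ≤ (b : ℝ) ^ (2 * s) := one_le_pow₀ hb1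
  have hlb : 0 ≤ Real.log b := Real.log_nonneg hb1
  have hD0 : (0 : ℝ) ≤ D := Nat.cast_nonneg D
  have hlogL : 0 ≤ Real.log ((L0 : ℝ) + 3) := Real.log_nonneg (by
    have : (0 : ℝ) ≤ L0 := Nat.cast_nonneg _
    linarith)
  refine ⟨8 * s * (Real.log b + 1) + (b : ℝ) ^ (2 * (L0 + 1)) * Real.log ((L0 : ℝ) + 3),
    by positivity, ?_⟩
  intro a c hc hcu hconv hgr hK l
  have ha : (1 : ℝ) ≤ a l := by
    have h1 : 1 ≤ a l := by
      by_contra h0
      have h0 : a l = 0 := by omega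
      have := hgr l
      rw [h0, zero_mul] at this
      have h2 : 0 < b ^ (2 * l) := Nat.pow_pos hb
      omega
    exact_mod_cast h1
  have hcl : (0 : ℝ) < c l := by exact_mod_cast hc l
  have hC2 : 0 ≤ (b : ℝ) ^ (2 * (L0 + 1)) * Real.log ((L0 : ℝ) + 3) := by positivity
  have hC1 : 0 ≤ 8 * s * (Real.log b + 1) := by positivity
  by_cases hl : L0 + 1 ≤ l
  swap
  · -- small `l`
    have hlL : l ≤ L0 := by omega
    have h1 : (c l : ℝ) ≤ (b : ℝ) ^ (2 * (L0 + 1)) := by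
      have h2 : c l ≤ b ^ (2 * (L0 + 1)) :=
        (hcu l).trans (Nat.pow_le_pow_right hb (by omega))
      exact_mod_cast h2
    have hl0 : (0 : ℝ) ≤ l := Nat.cast_nonneg _
    have hlL' : (l : ℝ) ≤ L0 := by exact_mod_cast hlL
    have h2 : Real.log ((l : ℝ) + 2) ≤ Real.log ((L0 : ℝ) + 3) :=
      Real.log_le_log (by linarith) (by linarith)
    have h3 : 0 ≤ Real.log ((l : ℝ) + 2) := Real.log_nonneg (by linarith)
    have h4 : (c l : ℝ) * Real.log (l + 2) ≤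
        (b : ℝ) ^ (2 * (L0 + 1)) * Real.log ((L0 : ℝ) + 3) :=
      mul_le_mul h1 h2 h3 (by positivity)
    nlinarith
  refine le_trans ?_ (mul_le_mul_of_nonneg_right
    (le_add_of_nonneg_right hC2 : 8 * s * (Real.log b + 1) ≤ _) (by linarith))
  have hl1 : 1 ≤ l := by omega
  have hl0 : (0 : ℝ) < l := by exact_mod_cast hl1
  have hlog : 1 ≤ Real.log (l + 2) := by
    rw [Real.le_log_iff_exp_le (by positivity)]
    have := Real.exp_one_lt_d9
    have : (1 : ℝ) ≤ l := by exact_mod_cast hl1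
    linarith
  have hsq : 1 ≤ √((l : ℝ) + 2) := by
    rw [Real.one_le_sqrt]
    linarith
  by_cases hal : (c l : ℝ) * Real.log (l + 2) ≤ a l
  · refine hal.trans ?_
    have h1 : (1 : ℝ) ≤ 8 * s * (Real.log b + 1) := by nlinarith
    nlinarith
  have hal := lt_of_not_ge hal
  have h1 := hL0 l (by omega)
  have hD1 : d + 1 + c 0 ≤ D := by
    have := hcu 0
    rw [show 2 * (0 + 1) = 2 from rfl] at this
    omega
  obtain ⟨L, hL⟩ : ∃ L, Real.log ((l : ℝ) + 2) = L := ⟨_, rfl⟩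
  have hj0 := ratio_explicit hb hc hconv hgr hD1 hl1 hal
  rw [hL] at hlog hal h1 hj0 ⊢
  have hL2 : L ≤ L ^ 2 * √((l : ℝ) + 2) := by
    have h3 : L ≤ L ^ 2 := by nlinarith
    have : 0 ≤ L ^ 2 := by positivity
    nlinarith
  have hK4 : 4 * (D + 1) ≤ 4 * s * (D + 1) * (b : ℝ) ^ (2 * s) := by
    have e1 : (1 : ℝ) ≤ s * (b : ℝ) ^ (2 * s) := one_le_mul_of_one_le_of_one_le hs1 hb2
    nlinarith
  have hDl : (D : ℝ) * L ≤ l := by
    refine le_trans ?_ h1
    calc (D : ℝ) * L ≤ (4 * s * (D + 1) * (b : ℝ) ^ (2 * s)) * (L ^ 2 * √((l : ℝ) + 2)) :=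
          mul_le_mul (by linarith) hL2 (by linarith) (by positivity)
      _ = 4 * s * (D + 1) * (b : ℝ) ^ (2 * s) * L ^ 2 * √((l : ℝ) + 2) := by ring
  have hj := hj0 hDl
  -- the number of layers
  obtain ⟨q, hq⟩ : ∃ q : ℝ, 4 * s * (Real.log b + 1) = q := ⟨_, rfl⟩
  have hq0 : 4 ≤ q := by
    rw [← hq]
    nlinarith
  let k0 : ℕ := ⌊L / q⌋₊
  have hk0 : (k0 : ℝ) ≤ L / q := Nat.floor_le (by positivity)
  have hk0' : L / q < k0 + 1 := Nat.lt_floor_add_one _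
  have hk0L : (k0 : ℝ) ≤ L := by
    refine hk0.trans ?_
    rw [div_le_iff₀ (by linarith)]
    nlinarith
  have hbk : ∀ k ≤ k0, (b : ℝ) ^ (2 * (s * k)) ≤ √((l : ℝ) + 2) := by
    intro k hk
    have h5 : (b : ℝ) ^ (2 * (s * k)) ≤ (b : ℝ) ^ (2 * (s * k0)) :=
      pow_le_pow_right₀ hb1 (Nat.mul_le_mul_left 2 (Nat.mul_le_mul_left s hk))
    refine h5.trans ?_
    have h6 : Real.log ((b : ℝ) ^ (2 * (s * k0))) ≤ L / 2 := by
      rw [Real.log_pow]
      push_cast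
      have h7 : (k0 : ℝ) * q ≤ L := by
        rwa [le_div_iff₀ (by linarith)] at hk0
      have h8 : 2 * ((s : ℝ) * k0) * Real.log b * 2 ≤ k0 * q := by
        rw [← hq]
        have : 0 ≤ (s : ℝ) * k0 := by positivity
        nlinarith
      linarith
    have h9 : (b : ℝ) ^ (2 * (s * k0)) = Real.exp (Real.log ((b : ℝ) ^ (2 * (s * k0)))) :=
      (Real.exp_log (by positivity)).symm
    rw [h9, Real.sqrt_eq_rpow, Real.rpow_def_of_pos (by positivity), hL]
    apply Real.exp_le_exp.2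
    linarith
  rcases hK k0 with ⟨i, hi, hA⟩ | hB
  · -- a bad null correspondence: impossible
    exfalso
    have h4 := hj (s * (i + 1))
    have h6 : 1 ≤ b ^ (2 * s * (i + 1)) := Nat.one_le_pow _ _ hb
    have h5 : ((c (l + s * (i + 1)) : ℕ) : ℝ) ≤ ((b : ℝ) ^ (2 * (s * (i + 1))) - 1) * c l := by
      have h7 : ((c (l + s * (i + 1)) : ℕ) : ℝ) ≤ (((b ^ (2 * s * (i + 1)) - 1) * c l : ℕ) : ℝ) := by
        exact_mod_cast hA l
      rw [Nat.cast_mul, Nat.cast_sub h6, mul_assoc 2 s (i + 1)] at h7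
      push_cast at h7
      exact h7
    have h8 := le_of_mul_le_mul_right (h4.trans h5) hcl
    have hiL : ((i : ℝ) + 1) ≤ 2 * L := by
      have : (i : ℝ) ≤ k0 := by exact_mod_cast hi
      linarith
    have h9 : (b : ℝ) ^ (2 * (s * (i + 1))) ≤ (b : ℝ) ^ (2 * s) * √((l : ℝ) + 2) := by
      have e1 : 2 * (s * (i + 1)) = 2 * s + 2 * (s * i) := by ring
      rw [e1, pow_add]
      exact mul_le_mul_of_nonneg_left (hbk i hi) (by positivity)
    have h10 : (b : ℝ) ^ (2 * (s * (i + 1))) * ((s * (i + 1) : ℕ) * (D * L / l)) ≤ 1 / 2 := by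
      have e1 : (b : ℝ) ^ (2 * (s * (i + 1))) * ((s * (i + 1) : ℕ) * (D * L / l)) =
          ((b : ℝ) ^ (2 * (s * (i + 1))) * (s * (i + 1) * (D * L))) / l := by
        push_cast
        ring
      rw [e1, div_le_iff₀ hl0]
      have h11 : (b : ℝ) ^ (2 * (s * (i + 1))) * (s * (i + 1) * (D * L)) ≤
          ((b : ℝ) ^ (2 * s) * √((l : ℝ) + 2)) * (s * (2 * L) * (D * L)) := by
        gcongr
      have h12 : ((b : ℝ) ^ (2 * s) * √((l : ℝ) + 2)) * (s * (2 * L) * (D * L)) * 2 ≤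
          4 * s * (D + 1) * (b : ℝ) ^ (2 * s) * L ^ 2 * √((l : ℝ) + 2) := by
        have : 0 ≤ (s : ℝ) * (b : ℝ) ^ (2 * s) * L ^ 2 * √((l : ℝ) + 2) := by positivity
        nlinarith
      linarith
    rw [mul_sub, mul_one] at h8
    linarith
  · have hterm : ∀ k ∈ Finset.range k0,
        ((b : ℝ) ^ (2 * (s * (k + 1))) - 1) * c l + 1 / 2 * c l ≤ c (l + s * (k + 1)) := by
      intro k hk
      have hk' := Finset.mem_range.1 hk
      refine le_trans ?_ (hj (s * (k + 1)))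
      rw [← add_mul]
      refine mul_le_mul_of_nonneg_right ?_ hcl.le
      have hkL : ((k : ℝ) + 1) ≤ L := by
        have : ((k + 1 : ℕ) : ℝ) ≤ k0 := by exact_mod_cast hk'
        push_cast at this
        linarith
      have h10 : (b : ℝ) ^ (2 * (s * (k + 1))) * ((s * (k + 1) : ℕ) * (D * L / l)) ≤ 1 / 2 := by
        have e1 : (b : ℝ) ^ (2 * (s * (k + 1))) * ((s * (k + 1) : ℕ) * (D * L / l)) =
            ((b : ℝ) ^ (2 * (s * (k + 1))) * (s * (k + 1) * (D * L))) / l := by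
          push_cast
          ring
        rw [e1, div_le_iff₀ hl0]
        have h11 : (b : ℝ) ^ (2 * (s * (k + 1))) * (s * (k + 1) * (D * L)) ≤
            √((l : ℝ) + 2) * (s * L * (D * L)) := by
          gcongr
          exact hbk (k + 1) hk'
        have h12 : √((l : ℝ) + 2) * (s * L * (D * L)) * 2 ≤
            4 * s * (D + 1) * (b : ℝ) ^ (2 * s) * L ^ 2 * √((l : ℝ) + 2) := by
          have e2 : 0 ≤ (s : ℝ) * L ^ 2 * √((l : ℝ) + 2) := by positivity
          have e3 : √((l : ℝ) + 2) * (s * L * (D * L)) * 2 =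
              2 * D * ((s : ℝ) * L ^ 2 * √((l : ℝ) + 2)) := by ring
          have e4 : 4 * s * (D + 1) * (b : ℝ) ^ (2 * s) * L ^ 2 * √((l : ℝ) + 2) =
              4 * (D + 1) * (b : ℝ) ^ (2 * s) * ((s : ℝ) * L ^ 2 * √((l : ℝ) + 2)) := by ring
          rw [e3, e4]
          refine mul_le_mul_of_nonneg_right ?_ e2
          nlinarith
        linarith
      rw [mul_sub, mul_one]
      linarith
    have hmain := hB k0 le_rfl l
    have hmain2 : (c l : ℝ) + ∑ k ∈ Finset.range k0, (c (l + s * (k + 1)) : ℝ) ≤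
        a l + ∑ k ∈ Finset.range k0, ((b : ℝ) ^ (2 * (s * (k + 1))) - 1) * c l := by
      have h13 : ((c l + ∑ k ∈ Finset.range k0, c (l + s * (k + 1)) : ℕ) : ℝ) ≤
          ((a l + ∑ k ∈ Finset.range k0, (b ^ (2 * s * (k + 1)) - 1) * c l : ℕ) : ℝ) := by
        exact_mod_cast hmain
      push_cast at h13
      refine h13.trans (le_of_eq ?_)
      congr 1
      refine Finset.sum_congr rfl fun k _ => ?_
      have h14 : 1 ≤ b ^ (2 * s * (k + 1)) := Nat.one_le_pow _ _ hb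
      rw [Nat.cast_sub h14, mul_assoc 2 s (k + 1)]
      push_cast
      rfl
    have hsum := Finset.sum_le_sum hterm
    rw [Finset.sum_add_distrib, Finset.sum_const, Finset.card_range, nsmul_eq_mul] at hsum
    have h15 : (c l : ℝ) + k0 * (1 / 2 * c l) ≤ a l := by linarith
    have h16 : L ≤ q * (k0 + 1) := by
      rw [div_lt_iff₀ (by linarith)] at hk0'
      linarith
    have h17 : 8 * s * (Real.log b + 1) = 2 * q := by rw [← hq]; ring
    rw [h17]
    have hk00 : (0 : ℝ) ≤ k0 := Nat.cast_nonneg _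
    calc (c l : ℝ) * L ≤ c l * (q * (k0 + 1)) := mul_le_mul_of_nonneg_left h16 hcl.le
      _ ≤ 2 * q * (c l + k0 * (1 / 2 * c l)) := by
        nlinarith [mul_pos (show (0 : ℝ) < q by linarith) hcl]
      _ ≤ 2 * q * a l := mul_le_mul_of_nonneg_left h15 (by linarith)

end Pool.Agent.Helper47.ZP
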