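import Mathlib
import Pool.Agent.Helper59.ZP.Semis
import Pool.Agent.Helper59.ZP.UniW
import Pool.Agent.Helper34.ZP.RelU2

/-!
# Uniform semisimplicity of Frobenius
-/

universe u v w

open CategoryTheory Finset Filter Topology

namespace Pool.Agent.Helper47.ZP

open Pool.Agent.Helper10 Pool.Agent.Helper11 SmProjVar Pool.Agent.Helper59.ZO
  Pool.Agent.Helper34.ZP Pool.Agent.Helper10.ZP Pool.Agent.Helper59.ZP

section

variable {k : Type u} [Field k] [Finite k] {K : Type v} [Field K] [CharZero K]
  (W : WeilCohomology.{u, v, w} k K)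

/-- a block of length two on one power: the steps of the filtration are strict on all large powers,
with an explicit bound -/
lemma tateI_ne_at {X : SmProjVar k} {s j : ℕ} {x : W.H (X.selfProd s)}
    (h0 : x ∈ W.gr (X.selfProd s) (2 * j))
    (h2 : (frS W (X.selfProd s) ((Nat.card k : K) ^ j) ^ 2) x = 0)
    (h1 : frS W (X.selfProd s) ((Nat.card k : K) ^ j) x ≠ 0) (i e : ℕ)
    (he : (s + 1) * (i + 1) ≤ e + 1) :
    tateI W (i + 1) (X.selfProd e) ≠ tateI W (i + 2) (X.selfProd e) := by
  intro heq
  have hb : Pool.Agent.Helper36.ZPW.Bad W (X.selfProd s) j 1 x :=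
    ⟨h0, by rw [pow_one]; exact h1, h2⟩
  obtain ⟨c, y, hy⟩ := hb.words W i
  have hpos : 0 < (s + 1) * (i + 1) := Nat.mul_pos (Nat.succ_pos s) (Nat.succ_pos i)
  obtain ⟨d, hd⟩ : ∃ d, d + 1 = (s + 1) * (i + 1) := ⟨(s + 1) * (i + 1) - 1, by omega⟩
  obtain ⟨z, hz⟩ := hy.retract W (G7_pow_pow X s i d hd).1
  have h3 := sys_eq_of_le (P := base W) (X := X) (isSys_tateI X (i + 1)) (isSys_tateI X (i + 2))
    (s := d) (r := e) (by omega) heq
  have h4 : z ∈ tateI W (i + 2) (X.selfProd d) := (mem_tateI_iff W hz.1).2 hz.2.2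
  have h5 : z ∈ tateI W (i + 1) (X.selfProd d) := by
    have h6 : tateI W (i + 1) (X.selfProd d) = tateI W (i + 2) (X.selfProd d) := h3
    rw [h6]
    exact h4
  exact hz.2.1 ((mem_tateI_iff W hz.1).1 h5)

/-- Frobenius on `H(X ^ (s + 1))` is semisimple if the eigenvalues `q ^ j` on the powers up to
`X ^ (2 s + 2)` are -/
lemma semisimple_of_eigenvalues (X : SmProjVar k) (s : ℕ)
    (h : ∀ (j : ℕ) (x : W.H (X.selfProd (s + s + 1))), x ∈ W.gr (X.selfProd (s + s + 1)) (2 * j) →
      (frS W (X.selfProd (s + s + 1)) ((Nat.card k : K) ^ j) ^ 2) x = 0 →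
        frS W (X.selfProd (s + s + 1)) ((Nat.card k : K) ^ j) x = 0) :
    (frL W (X.selfProd s)).IsSemisimple := by
  refine isSemisimple_of_square W (X.selfProd s) fun x hx hx2 => ?_
  obtain ⟨i, p, hip⟩ := Retract.pow_prod_pow X s s
  have h1 : ∀ y : W.H ((X.selfProd s).prod (X.selfProd s)), W.pullA i (W.pullA p y) = y := by
    intro y
    have e := W.pull_comp i p y
    rw [hip, W.pull_id] at e
    exact e.symm
  rw [← h1 (frS W _ _ x), ← pull_frS]
  have h2 := h (X.selfProd s).dim (W.pullA p x)
    ((W.pull_hom p).map_mem _ _ hx) (by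
      rw [pow_two, Module.End.mul_apply] at hx2 ⊢
      rw [pull_frS, pull_frS, hx2, map_zero])
  rw [h2, map_zero]

end

/-- **Uniform semisimplicity of the eigenvalues `q ^ j`.** -/
theorem uniform_eigenvalue (b r M : ℕ) : ∃ m₀ : ℕ,
    ∀ (k : Type u) [Field k] [Finite k] (K : Type v) [Field K] [CharZero K]
      (W : WeilCohomology.{u, v, w} k K) (X : SmProjVar k), betti W.toCohomologyData X ≤ b →
        ∀ m ≥ m₀, Module.finrank K (tateClasses W.toCohomologyData (X.selfProd m)) ≤
            M * numCycRank W.toCohomologyData (X.selfProd m) →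
          ∀ s ≤ r, ∀ (j : ℕ) (x : W.H (X.selfProd s)), x ∈ W.gr (X.selfProd s) (2 * j) →
            (frS W (X.selfProd s) ((Nat.card k : K) ^ j) ^ 2) x = 0 →
              frS W (X.selfProd s) ((Nat.card k : K) ^ j) x = 0 := by
  have hε : (0 : ℝ) < 1 / (M + 2) := by positivity
  have hε1 : (1 : ℝ) / (M + 2) ≤ 1 / 2 := by
    have h2 : (2 : ℝ) ≤ M + 2 := by
      have := Nat.cast_nonneg (α := ℝ) M
      linarith
    exact one_div_le_one_div_of_le (by norm_num) h2
  obtain ⟨m₀, h⟩ := chain_uniform.{u, v, w, v} b ((r + 1) * (2 * M + 2)) hε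
    (hε1.trans (by norm_num))
  refine ⟨m₀, ?_⟩
  intro k _ _ K _ _ W X hX m hm ht s hs j x h0 h2
  by_contra h1
  have hn := numCycRank_pos W (X.selfProd m)
  have hn' : (1 : ℝ) ≤ numCycRank W.toCohomologyData (X.selfProd m) := by exact_mod_cast hn
  have ht' : (Module.finrank K (tateClasses W.toCohomologyData (X.selfProd m)) : ℝ) ≤
      M * numCycRank W.toCohomologyData (X.selfProd m) := by exact_mod_cast ht
  have hM : (0 : ℝ) ≤ M := Nat.cast_nonneg M
  have hc : (cycRank W.toCohomologyData (X.selfProd m) : ℝ) ≤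
      Module.finrank K (tateClasses W.toCohomologyData (X.selfProd m)) := by
    exact_mod_cast cycRank_le_tate W (X.selfProd m)
  have key := h k K K (base W) (nr_base_pos W) X hX m hm
    (by
      rw [nr_base, hr_base, one_div, inv_mul_lt_iff₀ (by positivity)]
      have : (M : ℝ) * numCycRank W.toCohomologyData (X.selfProd m) <
          (M + 2) * numCycRank W.toCohomologyData (X.selfProd m) := by nlinarith
      linarith)
    (fun i n => tateI W (i + 1) (X.selfProd n)) (fun i => isSys_tateI X (i + 1))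
    (fun i n => tateI_mono W (Nat.le_succ _) _) (2 * M + 2)
    (fun i hi => tateI_ne_at W h0 h2 h1 i _ (by
      have e1 : (s + 1) * (i + 1) ≤ (r + 1) * (2 * M + 2) :=
        Nat.mul_le_mul (by omega) (by omega)
      omega))
  rw [nr_base] at key
  have hfin := Degen.finite_H W (X.selfProd m)
  have h5 : (Module.finrank K (tateI W (2 * M + 2 + 1) (X.selfProd m)) : ℝ) ≤
      Module.finrank K (tateClasses W.toCohomologyData (X.selfProd m)) := by
    exact_mod_cast Submodule.finrank_mono (tateI_le_tateV W (2 * M + 2 + 1) (X.selfProd m))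
  have h6 : ((2 * M + 2 : ℕ) : ℝ) * (1 - 1 / (M + 2)) *
      numCycRank W.toCohomologyData (X.selfProd m) ≤
        M * numCycRank W.toCohomologyData (X.selfProd m) := key.trans (h5.trans ht')
  have h7 : (M + 1 : ℝ) ≤ ((2 * M + 2 : ℕ) : ℝ) * (1 - 1 / (M + 2)) := by
    push_cast
    nlinarith
  nlinarith

/-- **Uniform semisimplicity of Frobenius.** For all `b`, `r` and `M` there is `m₀` such that for
all finite fields `k`, all Weil cohomology theories and all `X` with Betti number `≤ b`: if for one
`m ≥ m₀` the dimension of the space of Tate classes on `X ^ (m + 1)` is at most `M` times the rank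
of the algebraic classes modulo numerical equivalence, then Frobenius is semisimple on
`H(X ^ (s + 1))` for all `s ≤ r`. -/
theorem uniform_semisimple (b r M : ℕ) : ∃ m₀ : ℕ,
    ∀ (k : Type u) [Field k] [Finite k] (K : Type v) [Field K] [CharZero K]
      (W : WeilCohomology.{u, v, w} k K) (X : SmProjVar k), betti W.toCohomologyData X ≤ b →
        ∀ m ≥ m₀, Module.finrank K (tateClasses W.toCohomologyData (X.selfProd m)) ≤
            M * numCycRank W.toCohomologyData (X.selfProd m) →
          ∀ s ≤ r, (frL W (X.selfProd s)).IsSemisimple := by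
  obtain ⟨m₀, h⟩ := uniform_eigenvalue.{u, v, w} b (r + r + 1) M
  refine ⟨m₀, ?_⟩
  intro k _ _ K _ _ W X hX m hm ht s hs
  exact semisimple_of_eigenvalues W X s
    (h k K W X hX m hm ht (s + s + 1) (by omega))

/-- **Uniform semisimplicity of Frobenius**, in terms of the proportion of the numerically
non-trivial algebraic classes among the Tate classes. -/
theorem uniform_semisimple_density (b r : ℕ) (δ : ℝ) (hδ : 0 < δ) : ∃ m₀ : ℕ,
    ∀ (k : Type u) [Field k] [Finite k] (K : Type v) [Field K] [CharZero K]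
      (W : WeilCohomology.{u, v, w} k K) (X : SmProjVar k), betti W.toCohomologyData X ≤ b →
        ∀ m ≥ m₀, δ ≤ density W.toCohomologyData X (tateSystem W.toCohomologyData X) m →
          ∀ s ≤ r, W.StandardD (X.selfProd s) ∧
            IsFrobeniusSemisimple W.toCohomologyData (X.selfProd s) := by
  obtain ⟨m₁, h₁⟩ := uniform_semisimple.{u, v, w} b r ⌈1 / δ⌉₊
  obtain ⟨m₂, h₂⟩ := Pool.Agent.Helper13.ZP.one_power.{u, v, w, v} b r hδ
  refine ⟨max m₁ m₂, ?_⟩
  intro k _ _ K _ _ W X hX m hm hd s hs
  have hm₁ : m₁ ≤ m := (le_max_left _ _).trans hm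
  have hm₂ : m₂ ≤ m := (le_max_right _ _).trans hm
  have hpos : (0 : ℝ) < Module.finrank K (tateSystem W.toCohomologyData X m) :=
    sys_pos (isPerfectSystem_tate W X).toIsSystem m
  have hd' : δ * Module.finrank K (tateSystem W.toCohomologyData X m) ≤
      numCycRank W.toCohomologyData (X.selfProd m) := by
    unfold density at hd
    exact (le_div_iff₀ hpos).mp hd
  have hc : (cycRank W.toCohomologyData (X.selfProd m) : ℝ) ≤
      Module.finrank K (tateSystem W.toCohomologyData X m) := by
    exact_mod_cast cycRank_le_tate W (X.selfProd m)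
  constructor
  · have h3 := h₂ k K K (base W) (nr_base_pos W) X hX m hm₂ (by
      rw [nr_base, hr_base]
      exact (mul_le_mul_of_nonneg_left hc hδ.le).trans hd')
    exact (d_base W _).mp (D_of_le hs h3)
  · intro F hF
    have h1 : F = frL W (X.selfProd s) := LinearMap.ext hF
    rw [h1]
    refine h₁ k K W X hX m hm₁ ?_ s hs
    have h4 : (Module.finrank K (tateClasses W.toCohomologyData (X.selfProd m)) : ℝ) ≤
        (⌈1 / δ⌉₊ : ℝ) * numCycRank W.toCohomologyData (X.selfProd m) := by
      have h5 : (Module.finrank K (tateClasses W.toCohomologyData (X.selfProd m)) : ℝ) ≤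
          (1 / δ) * numCycRank W.toCohomologyData (X.selfProd m) := by
        rw [one_div, ← div_eq_inv_mul, le_div_iff₀ hδ, mul_comm]
        exact hd'
      exact h5.trans (mul_le_mul_of_nonneg_right (Nat.le_ceil _) (Nat.cast_nonneg _))
    exact_mod_cast h4

end Pool.Agent.Helper47.ZP
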