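import Pool.Agent.Helper47.ZP.Uniform

/-!
# The ratio lemma with a uniform constant
-/

namespace Pool.Agent.Helper47.ZP

/-- The ratio lemma, the constant being `d + 1 + b ^ 2`. -/
theorem ratio_uniform {a c : ℕ → ℕ} {b d : ℕ} (hb : 1 ≤ b) (hc : ∀ l, 1 ≤ c l)
    (h0 : c 0 ≤ b ^ 2) (hconv : ∀ l, c (l + 1) ^ 2 ≤ c l * c (l + 2))
    (hgr : ∀ l, b ^ (2 * l) ≤ a l * (l + 2) ^ d) (l : ℕ) (hl : 1 ≤ l)
    (hal : (a l : ℝ) < c l * Real.log (l + 2))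
    (hDl : ((d + 1 + b ^ 2 : ℕ) : ℝ) * Real.log (l + 2) ≤ l) (j : ℕ) :
    (b : ℝ) ^ (2 * j) * (1 - j * (((d + 1 + b ^ 2 : ℕ) : ℝ) * Real.log (l + 2) / l)) * c l ≤
      c (l + j) :=
  ratio_explicit hb hc hconv hgr (Nat.add_le_add_left h0 _) hl hal hDl j

end Pool.Agent.Helper47.ZP
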